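import Pool.Agent.H698R4.StrictPermFinal

set_option autoImplicit false

/-!
Amalgamated free products over finite subgroups of amenable permutation stable groups are
permutation stable.
-/

namespace Pool.Agent.Results.MP_0ea811_al.AmenableAmalg

open Pool.Agent.H698R3.Amalg Pool.Agent.H698R4

/-- Let `G₁` and `G₂` be countable amenable groups that are stable in permutations and `H` a finite
group embedded in both. Then `G₁ *_H G₂` is stable in permutations. -/
theorem result (G₁ G₂ H : Type) [Group G₁] [Group G₂] [Group H] [Countable G₁] [Countable G₂]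
    [Finite H] (f₁ : H →* G₁) (f₂ : H →* G₂)
    (hf₁ : Function.Injective f₁) (hf₂ : Function.Injective f₂)
    (ha₁ : Folner G₁) (ha₂ : Folner G₂)
    (hs₁ : PermutationStable G₁) (hs₂ : PermutationStable G₂) :
    PermutationStable (AmalgProd f₁ f₂) :=
  permStable_amalg_amenable f₁ f₂ hf₁ hf₂ ha₁ ha₂ hs₁ hs₂

end Pool.Agent.Results.MP_0ea811_al.AmenableAmalg
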