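import Pool.Agent.H698R4.FxHs3

set_option autoImplicit false

/-!
Amalgamated free products over finite subgroups of flexibly stable groups are flexibly stable,
for sofic (respectively hyperlinear) groups.
-/

namespace Pool.Agent.Results.MP_0ea811_al.FlexibleAmalg

open Pool.Agent.H698R3.Amalg Pool.Agent.H698R4

/-- Let `G₁ = ⟨s₁⟩` and `G₂ = ⟨s₂⟩` be finitely generated groups and `H` a finite group embedded
in both. If `G₁` and `G₂` are stable or flexibly stable in permutations, and either both are sofic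
or the same elements of `H` die in all finite quotients of `G₁` and of `G₂`, then `G₁ *_H G₂` is
flexibly stable in permutations. The same holds for Hilbert-Schmidt stability, with hyperlinear
in place of sofic. -/
theorem result (G₁ G₂ H : Type) [Group G₁] [Group G₂] [Group H] [Finite H]
    (f₁ : H →* G₁) (f₂ : H →* G₂) (hf₁ : Function.Injective f₁) (hf₂ : Function.Injective f₂)
    (r₁ r₂ r : ℕ) (s₁ : Fin r₁ → G₁) (s₂ : Fin r₂ → G₂) (s : Fin r → AmalgProd f₁ f₂)
    (hs₁ : Subgroup.closure (Set.range s₁) = ⊤) (hs₂ : Subgroup.closure (Set.range s₂) = ⊤)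
    (hs : Subgroup.closure (Set.range s) = ⊤) :
    ((PermutationStable G₁ ∨ FlexPermWrt s₁) → (PermutationStable G₂ ∨ FlexPermWrt s₂) →
      ((Sofic G₁ ∧ Sofic G₂) ∨ SameRes f₁ f₂) → FlexPermWrt s) ∧
    ((HilbertSchmidtStable G₁ ∨ FlexHSWrt s₁) → (HilbertSchmidtStable G₂ ∨ FlexHSWrt s₂) →
      ((Hyperlinear G₁ ∧ Hyperlinear G₂) ∨ SameRes f₁ f₂) → FlexHSWrt s) := by
  refine ⟨fun h₁ h₂ h => ?_, fun h₁ h₂ h => ?_⟩
  · refine flexPerm_amalg f₁ f₂ ?_ s₁ hs₁ s₂ hs₂ h₁ h₂ s hs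
    rcases h with h | h
    · exact sameRes_of f₁ f₂ hf₁ hf₂ (not_killed_of_sofic s₁ hs₁ h₁ h.1)
        (not_killed_of_sofic s₂ hs₂ h₂ h.2)
    · exact h
  · refine flexHS_amalg f₁ f₂ ?_ s₁ hs₁ s₂ hs₂ h₁ h₂ s hs
    rcases h with h | h
    · exact sameRes_of f₁ f₂ hf₁ hf₂ (not_killed_of_hyperlinear s₁ hs₁ h₁ h.1)
        (not_killed_of_hyperlinear s₂ hs₂ h₂ h.2)
    · exact h

end Pool.Agent.Results.MP_0ea811_al.FlexibleAmalg
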