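import Pool.Agent.H698R5.MixedMain

set_option autoImplicit false

/-!
Amalgamated free products over a finite subgroup that is almost normal in one of the two groups,
the other group being amenable (permutation stability) or of subexponential growth
(Hilbert-Schmidt stability).
-/

namespace Pool.Agent.Results.MP_0ea811_al.MixedAmalg

open Pool.Agent.H698R3.Amalg Pool.Agent.H698R4 Pool.Agent.H698R5

/-- Let `G₁` and `G₂` be finitely generated groups and `H` a finite group embedded in both, almost
normal in `G₂`. If `G₁` is amenable, `G₂` is sofic and both are stable in permutations, so is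
`G₁ *_H G₂`. If `G₁` has subexponential growth, `G₂` is hyperlinear and both are Hilbert-Schmidt
stable, so is `G₁ *_H G₂`. -/
theorem result (G₁ G₂ H : Type) [Group G₁] [Group G₂] [Group H] [Group.FG G₁] [Group.FG G₂]
    [Finite H] (f₁ : H →* G₁) (f₂ : H →* G₂)
    (hf₁ : Function.Injective f₁) (hf₂ : Function.Injective f₂)
    (hn₂ : AlmostNormal f₂.range) :
    (Folner G₁ → Sofic G₂ → PermutationStable G₁ → PermutationStable G₂ →
      PermutationStable (AmalgProd f₁ f₂)) ∧
    (SubexpGrowth G₁ → Hyperlinear G₂ → HilbertSchmidtStable G₁ → HilbertSchmidtStable G₂ →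
      HilbertSchmidtStable (AmalgProd f₁ f₂)) := by
  have := countable_of_fg G₁
  have := countable_of_fg G₂
  exact ⟨fun h1 h2 h3 h4 => permStable_amalg_mixed f₁ f₂ hf₁ hf₂ h1 hn₂ h2 h3 h4,
    fun h1 h2 h3 h4 => hsStable_amalg_mixed f₁ f₂ hf₁ hf₂ h1 hn₂ h2 h3 h4⟩

end Pool.Agent.Results.MP_0ea811_al.MixedAmalg
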