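import Pool.Agent.H698R5.HsMain

set_option autoImplicit false

/-!
Amalgamated free products over finite subgroups of Hilbert-Schmidt stable groups of subexponential
growth are Hilbert-Schmidt stable.
-/

namespace Pool.Agent.Results.MP_0ea811_al.SubexpAmalgHS

open Pool.Agent.H698R3.Amalg Pool.Agent.H698R5

/-- Let `G₁` and `G₂` be finitely generated groups of subexponential growth that are
Hilbert-Schmidt stable and `H` a finite group embedded in both. Then `G₁ *_H G₂` is
Hilbert-Schmidt stable. -/
theorem result (G₁ G₂ H : Type) [Group G₁] [Group G₂] [Group H] [Group.FG G₁] [Group.FG G₂]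
    [Finite H] (f₁ : H →* G₁) (f₂ : H →* G₂)
    (hf₁ : Function.Injective f₁) (hf₂ : Function.Injective f₂)
    (hg₁ : SubexpGrowth G₁) (hg₂ : SubexpGrowth G₂)
    (hs₁ : HilbertSchmidtStable G₁) (hs₂ : HilbertSchmidtStable G₂) :
    HilbertSchmidtStable (AmalgProd f₁ f₂) :=
  hsStable_amalg_subexp f₁ f₂ hf₁ hf₂ hg₁ hg₂ hs₁ hs₂

end Pool.Agent.Results.MP_0ea811_al.SubexpAmalgHS
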